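import Mathlib
import Pool.Agent.Helper12.FacDefs
import Pool.Agent.Helper12.FacNE2

/-!
# Planar convex bodies other than parallelograms have only elliptic polynomial factors
-/

namespace Pool.Agent.Results.MP_a61b9a_an.EllipticFactors

open Helper12.ConvexFactor

theorem result : ∀ K : Set (Fin 2 → ℝ), IsConvexBody K →
    ((∃ p : MvPolynomial (Fin 2) ℂ, p.totalDegree ≠ 0 ∧ IsPolynomialFactor K p ∧
      ¬ IsElliptic p) ↔ IsParallelogram K) :=
  fun _ B => Helper12.Fac.elliptic_or_para B

end Pool.Agent.Results.MP_a61b9a_an.EllipticFactors
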