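import Mathlib
import Pool.Agent.Helper12.FacDefs
import Pool.Agent.Helper12.FacDefs2
import Pool.Agent.Helper12.PF.LinFac

/-!
# Convex bodies in any dimension whose indicator transform has a factor of degree one
-/

namespace Pool.Agent.Results.MP_a61b9a_an.LinearFactor

open Helper12.ConvexFactor

theorem result : ∀ (n : ℕ) (K : Set (Fin n → ℝ)), IsConvexBody K →
    ((∃ p : MvPolynomial (Fin n) ℂ, p.totalDegree = 1 ∧ IsPolynomialFactor K p) ↔
      IsCylinder K) :=
  fun _ _ hK => Helper12.PF.linear_iff hK

end Pool.Agent.Results.MP_a61b9a_an.LinearFactor
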