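import Mathlib
import Pool.Agent.Helper12.FacDefs
import Pool.Agent.Helper12.FacBridge

/-!
# Planar convex bodies with a corner and a polynomial factor

A convex body in the plane with a corner has a polynomial factor if and only if it is a
parallelogram.
-/

namespace Pool.Agent.Results.MP_a61b9a_an.PlanarCorner

open Helper12.ConvexFactor

theorem result : ∀ K : Set (Fin 2 → ℝ), IsConvexBody K → HasCorner K →
    (HasPolynomialFactor K ↔ IsParallelogram K) :=
  fun _ B hc => Helper12.Fac.corner_iff B hc

end Pool.Agent.Results.MP_a61b9a_an.PlanarCorner
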