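import Mathlib
import Pool.Agent.Helper12.FacDefs
import Pool.Agent.Helper12.FacDefs2
import Pool.Agent.Helper12.PF.Poly
import Pool.Agent.Helper34.A61.AC
import Pool.Agent.Helper89.A61.RT
import Pool.Agent.Helper90.A61.EP

/-!
# Polytopes in any dimension whose indicator transform has a polynomial factor
-/

namespace Pool.Agent.Results.MP_a61b9a_an.Polytope

open Helper12.ConvexFactor

theorem result : ∀ (n : ℕ) (K : Set (Fin n → ℝ)), IsConvexBody K → IsPolyhedron K →
    (HasPolynomialFactor K ↔ IsCylinder K) :=
  fun _ _ hK hP => Helper12.PF.polytope_iff (Helper89.A61.ritt Helper34.AC.ac)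
    Pool.Agent.Helper90.A61.ep hK hP

end Pool.Agent.Results.MP_a61b9a_an.Polytope
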